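import Pool.Agent.Y6.F.Stm

/-! Static estimate of type 3: both modes are other modes, and the detuning is large. -/

set_option autoImplicit false

namespace Pool.Agent.Y907.EF.ST3

open Pool.Agent.Y6.F
open Pool.Agent.Y6.M (cK Md Frame Z3 C3)

lemma core {A B L μ c EA EB EL : ℝ} (hA : 1 ≤ A) (hAB : A ≤ B) (hL : 1 ≤ L) (hBμ : B ≤ μ)
    (hLμ : L ≤ μ) (hc0 : 0 ≤ c) (hc : c ≤ 2 * Real.pi * L) (hEA0 : 0 ≤ EA) (hEA : EA ≤ 1)
    (hEB0 : 0 ≤ EB) (hEB : EB ≤ L * EL) (hEL : 0 ≤ EL) :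
    c / (10 ^ 60 / 2 * μ ^ 12) * (2 * ((10 ^ 20)⁻¹ * (A ^ 7)⁻¹ * EA) *
      ((10 ^ 20)⁻¹ * (B ^ 7)⁻¹ * EB) + (10 ^ 4 * A ^ 2 * EA * ((10 ^ 20)⁻¹ * (B ^ 7)⁻¹ * EB) +
      (10 ^ 20)⁻¹ * (A ^ 7)⁻¹ * EA * (10 ^ 4 * B ^ 2 * EB))) ≤
      (10 ^ 50)⁻¹ * (L ^ 7)⁻¹ * EL * (A ^ 4)⁻¹ := by
  have hA0 : 0 < A := by linarith
  have hB1 : 1 ≤ B := hA.trans hAB
  have hB0 : 0 < B := by linarith
  have hL0 : 0 < L := by linarith
  have hμ1 : 1 ≤ μ := hL.trans hLμ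
  have hμ0 : 0 < μ := by linarith
  set u := (A ^ 4)⁻¹ with hu
  have hu0 : 0 < u := by positivity
  have h1 : (A ^ 7)⁻¹ ≤ u := by
    rw [hu]
    exact inv_anti₀ (by positivity) (pow_le_pow_right₀ hA (by norm_num))
  have h10 : 0 ≤ (A ^ 7)⁻¹ := by positivity
  have h2 : (B ^ 7)⁻¹ ≤ 1 := inv_le_one_of_one_le₀ (one_le_pow₀ hB1)
  have h20 : 0 ≤ (B ^ 7)⁻¹ := by positivity
  have h3 : A ^ 2 * (B ^ 7)⁻¹ ≤ u := by
    rw [hu, ← div_eq_mul_inv, div_le_iff₀ (by positivity), inv_mul_eq_div,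
      le_div_iff₀ (by positivity), ← pow_add]
    calc A ^ (2 + 4) ≤ B ^ (2 + 4) := pow_le_pow_left₀ hA0.le hAB _
      _ ≤ B ^ 7 := pow_le_pow_right₀ hB1 (by norm_num)
  have h4 : B ^ 2 ≤ μ ^ 2 := pow_le_pow_left₀ hB0.le hBμ _
  have hμ2 : (1 : ℝ) ≤ μ ^ 2 := one_le_pow₀ hμ1
  have hd : ((10 : ℝ) ^ 20)⁻¹ ≤ 1 := by norm_num
  have hd0 : (0 : ℝ) ≤ ((10 : ℝ) ^ 20)⁻¹ := by norm_num
  set δ := ((10 : ℝ) ^ 20)⁻¹ with hδ
  set v := (A ^ 7)⁻¹ with hv
  set w := (B ^ 7)⁻¹ with hw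
  have t1 : 2 * (δ * v * EA) * (δ * w * EB) ≤ 2 * μ ^ 2 * u * EB := by
    calc 2 * (δ * v * EA) * (δ * w * EB) ≤ 2 * (1 * u * 1) * (1 * 1 * EB) := by gcongr
      _ = 2 * 1 * u * EB := by ring
      _ ≤ 2 * μ ^ 2 * u * EB := by gcongr
  have t2 : 10 ^ 4 * A ^ 2 * EA * (δ * w * EB) ≤ 10 ^ 4 * μ ^ 2 * u * EB := by
    calc 10 ^ 4 * A ^ 2 * EA * (δ * w * EB) = 10 ^ 4 * (A ^ 2 * w) * EA * δ * EB := by ring
      _ ≤ 10 ^ 4 * u * 1 * 1 * EB := by gcongr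
      _ = 10 ^ 4 * 1 * u * EB := by ring
      _ ≤ 10 ^ 4 * μ ^ 2 * u * EB := by gcongr
  have t3 : δ * v * EA * (10 ^ 4 * B ^ 2 * EB) ≤ 10 ^ 4 * μ ^ 2 * u * EB := by
    calc δ * v * EA * (10 ^ 4 * B ^ 2 * EB) ≤ 1 * u * 1 * (10 ^ 4 * μ ^ 2 * EB) := by gcongr
      _ = 10 ^ 4 * μ ^ 2 * u * EB := by ring
  have hS0 : 0 ≤ 2 * (δ * v * EA) * (δ * w * EB) + (10 ^ 4 * A ^ 2 * EA * (δ * w * EB) +
      δ * v * EA * (10 ^ 4 * B ^ 2 * EB)) := by positivity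
  have hS : 2 * (δ * v * EA) * (δ * w * EB) + (10 ^ 4 * A ^ 2 * EA * (δ * w * EB) +
      δ * v * EA * (10 ^ 4 * B ^ 2 * EB)) ≤ 3 * 10 ^ 4 * μ ^ 2 * u * (L * EL) := by
    calc _ ≤ 2 * μ ^ 2 * u * EB + (10 ^ 4 * μ ^ 2 * u * EB + 10 ^ 4 * μ ^ 2 * u * EB) :=
          add_le_add t1 (add_le_add t2 t3)
      _ ≤ 3 * 10 ^ 4 * μ ^ 2 * u * EB := by
          have : 0 ≤ μ ^ 2 * u * EB := by positivity
          nlinarith
      _ ≤ 3 * 10 ^ 4 * μ ^ 2 * u * (L * EL) := by gcongr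
  have h5 : c / (10 ^ 60 / 2 * μ ^ 12) ≤ 8 * L / (10 ^ 60 / 2 * μ ^ 12) := by
    apply div_le_div_of_nonneg_right _ (by positivity)
    have := Real.pi_lt_four
    nlinarith
  calc _ ≤ 8 * L / (10 ^ 60 / 2 * μ ^ 12) * (3 * 10 ^ 4 * μ ^ 2 * u * (L * EL)) := by
        apply mul_le_mul h5 hS hS0 (by positivity)
    _ = 48 * 10 ^ 4 / 10 ^ 60 * (L ^ 2 * (μ ^ 10)⁻¹) * (EL * u) := by
        field_simp
        ring
    _ ≤ (10 ^ 50)⁻¹ * (L ^ 7)⁻¹ * (EL * u) := by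
        have h6 : L ^ 2 * (μ ^ 10)⁻¹ ≤ (L ^ 7)⁻¹ := by
          calc L ^ 2 * (μ ^ 10)⁻¹ ≤ L ^ 2 * (L ^ 10)⁻¹ := by
                apply mul_le_mul_of_nonneg_left _ (by positivity)
                exact inv_anti₀ (by positivity) (pow_le_pow_left₀ hL0.le hLμ _)
            _ = (L ^ 8)⁻¹ := by
                field_simp
            _ ≤ (L ^ 7)⁻¹ :=
                inv_anti₀ (by positivity) (pow_le_pow_right₀ hL (by norm_num))
        have h7 : (48 * 10 ^ 4 / 10 ^ 60 : ℝ) ≤ (10 ^ 50)⁻¹ := by norm_num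
        apply mul_le_mul_of_nonneg_right _ (by positivity)
        exact mul_le_mul h7 h6 (by positivity) (by positivity)
    _ = _ := by ring

lemma pairs {f : Md → ℝ} (hf : ∀ a, 0 ≤ f a) (hs : Summable f) (k : Z3) :
    Summable (fun p : Md × Md => open Classical in if p.1.1.1 + p.2.1.1 = k then f p.1 else 0) ∧
    ∑' p : Md × Md, (open Classical in if p.1.1.1 + p.2.1.1 = k then f p.1 else 0) ≤
      2 * ∑' a, f a := by
  classical
  have hG : Summable (fun q : Md × Bool => f q.1) := by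
    have h1 : Summable (fun _ : Bool => (1 : ℝ)) := (hasSum_fintype _).summable
    have := hs.mul_of_nonneg h1 hf (fun _ => zero_le_one)
    simpa using this
  have hG2 : ∑' q : Md × Bool, f q.1 = 2 * ∑' a, f a := by
    rw [hG.tsum_prod, ← tsum_mul_left]
    apply tsum_congr
    intro a
    rw [tsum_fintype]
    simp
  set P : Set (Md × Md) := {p | p.1.1.1 + p.2.1.1 = k} with hP
  let e : P → Md × Bool := fun p => (p.1.1, p.1.2.2)
  have he : Function.Injective e := by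
    rintro ⟨⟨a, ⟨⟨b, hb⟩, s⟩⟩, hp⟩ ⟨⟨a', ⟨⟨b', hb'⟩, s'⟩⟩, hp'⟩ h
    simp only [e, Prod.mk.injEq] at h
    obtain ⟨h1, h2⟩ := h
    subst h1 h2
    simp only [hP, Set.mem_ofPred_eq] at hp hp'
    have h3 : b = b' := by
      rw [← hp'] at hp
      exact add_left_cancel hp
    subst h3
    rfl
  have h1 : Summable (fun p : P => f p.1.1) := hG.comp_injective he
  have h2 : (fun p : Md × Md => if p.1.1.1 + p.2.1.1 = k then f p.1 else 0) =
      P.indicator (fun p => f p.1) := by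
    ext p
    simp only [Set.indicator, hP, Set.mem_ofPred_eq]
  rw [h2]
  refine ⟨summable_subtype_iff_indicator.1 h1, ?_⟩
  rw [← tsum_subtype, ← hG2]
  exact h1.tsum_le_tsum_of_inj e he (fun q _ => hf _) (fun p => le_rfl) hG

theorem t_ST3 : Pool.Agent.Y6.F.S_ST 3 := by
  classical
  intro _hLV hCODE _hSUMS hVEC hLAT hENV h hh M hM i hi
  obtain ⟨⟨hs4, ht4⟩, _⟩ := hLAT
  obtain ⟨hmono, hdbl, _, _, hbd⟩ := hENV.1 M hM
  obtain ⟨_, _, _, _, hln, htri⟩ := hCODE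
  have hcK := (hVEC h hh).2.1
  have hcK0 : ∀ p : Md × Md, p.1.1.1 + p.2.1.1 ≠ i.1.1 → cK h i p.1 p.2 = 0 := by
    intro p hp
    unfold cK
    rw [if_neg hp]
  have hL : 1 ≤ ln i := (hln i).1
  set K : ℝ := (10 ^ 50)⁻¹ * (ln i ^ 7)⁻¹ * env M (ln i) with hK
  have hE0 := (hbd (ln i)).1
  have hK0 : 0 ≤ K := by rw [hK]; positivity
  set f : Md → ℝ := fun a => (ln a ^ 4)⁻¹ with hf
  have hf0 : ∀ a, 0 ≤ f a := fun a => by
    have := (hln a).1
    simp only [hf]; positivity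
  obtain ⟨p1, p2⟩ := pairs hf0 hs4 i.1.1
  set F1 : Md × Md → ℝ := fun p => if p.1.1.1 + p.2.1.1 = i.1.1 then f p.1 else 0 with hF1
  set F2 : Md × Md → ℝ := fun p => if p.1.1.1 + p.2.1.1 = i.1.1 then f p.2 else 0 with hF2
  have hF21 : F2 = F1 ∘ (Equiv.prodComm Md Md) := by
    ext p
    simp only [hF2, hF1, Function.comp, Equiv.prodComm_apply, Prod.fst_swap, Prod.snd_swap]
    rw [add_comm]
  have q1 : Summable F2 := by
    rw [hF21]; exact (Equiv.summable_iff _).2 p1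
  have q2 : ∑' p, F2 p ≤ 2 * ∑' a, f a := by
    have : ∑' p, F2 p = ∑' p, F1 p := by
      rw [hF21]; exact Equiv.tsum_eq (Equiv.prodComm Md Md) F1
    rw [this]; exact p2
  -- the contribution of a pair of type 3
  have hpt : ∀ p : Md × Md, 0 ≤ (if Ty i p = 3 then tm h M i p else 0) ∧
      (if Ty i p = 3 then tm h M i p else 0) ≤ K * (F1 p + F2 p) := by
    intro p
    have hF10 : 0 ≤ F1 p := by
      simp only [hF1]; split_ifs
      · exact hf0 _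
      · exact le_rfl
    have hF20 : 0 ≤ F2 p := by
      simp only [hF2]; split_ifs
      · exact hf0 _
      · exact le_rfl
    by_cases hT : Ty i p = 3
    swap
    · rw [if_neg hT]
      exact ⟨le_rfl, mul_nonneg hK0 (add_nonneg hF10 hF20)⟩
    rw [if_pos hT]
    have h1 : σM p.1 ≠ 0 := by
      intro h0
      unfold Ty at hT
      rw [if_pos h0] at hT
      split_ifs at hT <;> omega
    have h2 : σM p.2 ≠ 0 := by
      intro h0
      unfold Ty at hT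
      rw [if_neg h1, if_pos h0] at hT
      omega
    have h3 : 256 * min (ln p.1) (ln p.2) ^ 4 ≤ mx i p ^ 3 := by
      unfold Ty at hT
      rw [if_neg h1, if_neg h2] at hT
      by_contra h0
      rw [if_neg h0] at hT
      omega
    have hD : D0 i p = 10 ^ 60 / 2 * mx i p ^ 12 := by
      unfold D0
      rw [if_neg h1, if_neg h2, if_pos h3]
    have hp1 : 1 ≤ ln p.1 := (hln p.1).1
    have hp2 : 1 ≤ ln p.2 := (hln p.2).1
    have hm1 : ln p.1 ≤ mx i p := (le_max_left _ _).trans (le_max_left _ _)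
    have hm2 : ln p.2 ≤ mx i p := (le_max_right _ _).trans (le_max_left _ _)
    have hm3 : ln i ≤ mx i p := le_max_right _ _
    have hmx : 0 < mx i p := by linarith
    have hD0 : 0 < D0 i p := by rw [hD]; positivity
    have htm : tm h M i p = ‖cK h i p.1 p.2‖ / (10 ^ 60 / 2 * mx i p ^ 12) *
        (2 * ((10 ^ 20)⁻¹ * (ln p.1 ^ 7)⁻¹ * env M (ln p.1)) *
        ((10 ^ 20)⁻¹ * (ln p.2 ^ 7)⁻¹ * env M (ln p.2)) +
        (10 ^ 4 * ln p.1 ^ 2 * env M (ln p.1) * ((10 ^ 20)⁻¹ * (ln p.2 ^ 7)⁻¹ * env M (ln p.2)) +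
        (10 ^ 20)⁻¹ * (ln p.1 ^ 7)⁻¹ * env M (ln p.1) * (10 ^ 4 * ln p.2 ^ 2 * env M (ln p.2)))) := by
      unfold tm eF rF
      rw [if_pos hD0, if_neg h1, if_neg h2, hD]
    have he1 := hbd (ln p.1)
    have he2 := hbd (ln p.2)
    have he10 := he1.1
    have he20 := he2.1
    refine ⟨by rw [htm]; positivity, ?_⟩
    by_cases hk : p.1.1.1 + p.2.1.1 = i.1.1
    swap
    · rw [htm, hcK0 p hk, norm_zero, zero_div, zero_mul]
      exact mul_nonneg hK0 (add_nonneg hF10 hF20)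
    have ht := (htri i p.1 p.2 hk).1
    have hc := (hcK i p.1 p.2).1
    have hdd := hdbl (ln i) hL
    rcases le_total (ln p.1) (ln p.2) with h12 | h12
    · have hEB : env M (ln p.2) ≤ ln i * env M (ln i) :=
        (hmono (ln i / 2) (ln p.2) (by linarith) (by linarith)).trans hdd
      have := core hp1 h12 hL hm2 hm3 (norm_nonneg _) hc he10.le he1.2 he20.le hEB hE0.le
      rw [htm]
      refine this.trans ?_
      rw [← hK]
      apply mul_le_mul_of_nonneg_left _ hK0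
      have : F1 p = (ln p.1 ^ 4)⁻¹ := by simp only [hF1, hf]; rw [if_pos hk]
      rw [this]
      linarith
    · have hEB : env M (ln p.1) ≤ ln i * env M (ln i) :=
        (hmono (ln i / 2) (ln p.1) (by linarith) (by linarith)).trans hdd
      have := core hp2 h12 hL hm1 hm3 (norm_nonneg _) hc he20.le he2.2 he10.le hEB hE0.le
      rw [htm]
      refine le_trans (le_of_eq (by ring)) (this.trans ?_)
      rw [← hK]
      apply mul_le_mul_of_nonneg_left _ hK0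
      have : F2 p = (ln p.2 ^ 4)⁻¹ := by simp only [hF2, hf]; rw [if_pos hk]
      rw [this]
      linarith
  have hmaj : Summable (fun p => K * (F1 p + F2 p)) := (p1.add q1).mul_left K
  have hsum := Summable.of_nonneg_of_le (fun p => (hpt p).1) (fun p => (hpt p).2) hmaj
  refine ⟨hsum, ?_⟩
  refine (hsum.tsum_le_tsum (fun p => (hpt p).2) hmaj).trans ?_
  rw [tsum_mul_left, p1.tsum_add q1]
  have h5 : ∑' p, F1 p + ∑' p, F2 p ≤ 4000 := by linarith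
  have h6 : (10 ^ 50 : ℝ)⁻¹ * 4000 ≤ (10 ^ 20)⁻¹ / 10 := by norm_num
  have h7 : 0 ≤ (ln i ^ 7)⁻¹ * env M (ln i) := by positivity
  calc K * (∑' p, F1 p + ∑' p, F2 p) ≤ K * 4000 := mul_le_mul_of_nonneg_left h5 hK0
    _ = ((10 ^ 50)⁻¹ * 4000) * ((ln i ^ 7)⁻¹ * env M (ln i)) := by rw [hK]; ring
    _ ≤ ((10 ^ 20)⁻¹ / 10) * ((ln i ^ 7)⁻¹ * env M (ln i)) := mul_le_mul_of_nonneg_right h6 h7
    _ = _ := by ring

end Pool.Agent.Y907.EF.ST3
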